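import Pool.Agent.Helper65.IC.St

/-!
# Project IC, module QQ: a splitting relation gives a copy of the rationals
-/

set_option autoImplicit false

universe u

namespace Pool.Agent.Helper41.IC

open Subgroup Pool.Agent.Helper58.RK Pool.Agent.Helper65.IC

theorem pQQ : StQQ.{u} := by
  intro α _ S hS R hR hsplit hex
  obtain ⟨x₀, hx₀, y₀, hy₀, hxy₀, hR₀⟩ := hex
  set F : Set (Set α) := {T | T ⊆ S ∧ ∀ x ∈ T, ∀ y ∈ T, x < y → R x y} with hF
  have h0 : ({x₀, y₀} : Set α) ∈ F := by
    refine ⟨?_, ?_⟩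
    · rintro x (rfl | rfl)
      · exact hx₀
      · exact hy₀
    · rintro x (rfl | rfl) y (rfl | rfl) hxy
      · exact absurd hxy (lt_irrefl _)
      · exact hR₀
      · exact absurd (hxy.trans hxy₀) (lt_irrefl _)
      · exact absurd hxy (lt_irrefl _)
  obtain ⟨T, hT0, hTm⟩ := zorn_subset_nonempty F (by
    intro c hc hch hne
    refine ⟨⋃₀ c, ⟨?_, ?_⟩, fun s hs => Set.subset_sUnion_of_mem hs⟩
    · exact Set.sUnion_subset fun s hs => (hc hs).1
    · rintro x ⟨s, hs, hxs⟩ y ⟨t, ht, hyt⟩ hxy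
      rcases hch.total hs ht with h | h
      · exact (hc ht).2 x (h hxs) y hyt hxy
      · exact (hc hs).2 x hxs y (h hyt) hxy) {x₀, y₀} h0
  have hTF : T ∈ F := hTm.prop
  have hxT : x₀ ∈ T := hT0 (by simp)
  have hyT : y₀ ∈ T := hT0 (by simp)
  have dense : ∀ x ∈ T, ∀ y ∈ T, x < y → ∃ l ∈ T, x < l ∧ l < y := by
    intro x hx y hy hxy
    by_contra hno
    push Not at hno
    obtain ⟨l, hlS, hxl, hly, hRxl, hRly⟩ := hsplit x (hTF.1 hx) y (hTF.1 hy) hxy (hTF.2 x hx y hy hxy)
    have hlT : l ∉ T := fun h => hno l h hxl hly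
    have hins : insert l T ∈ F := by
      refine ⟨Set.insert_subset hlS hTF.1, ?_⟩
      rintro z (rfl | hz) w (rfl | hw) hzw
      · exact absurd hzw (lt_irrefl _)
      · -- `z = l < w`
        have hyw : y ≤ w := by
          rcases hS y (hTF.1 hy) w (hTF.1 hw) with h | h
          · exact h
          · rcases h.lt_or_eq with h' | h'
            · exact absurd h' (hno w hw (hxl.trans hzw))
            · exact h'.ge
        exact hR _ _ _ _ le_rfl hyw hRly
      · have hzx : z ≤ x := by
          rcases hS z (hTF.1 hz) x (hTF.1 hx) with h | h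
          · exact h
          · rcases h.lt_or_eq with h' | h'
            · exact absurd (hzw.trans hly) (hno z hz h')
            · exact h'.ge
        exact hR _ _ _ _ hzx le_rfl hRxl
      · exact hTF.2 z hz w hw hzw
    exact hlT (hTm.le_of_ge hins (Set.subset_insert l T) (Set.mem_insert l T))
  classical
  let _ : LinearOrder T :=
    { (inferInstance : PartialOrder T) with
      le_total := fun a b => hS a.1 (hTF.1 a.2) b.1 (hTF.1 b.2)
      toDecidableLE := Classical.decRel _
      toDecidableEq := Classical.decEq _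
      toDecidableLT := Classical.decRel _ }
  have : DenselyOrdered T := ⟨fun a b hab => by
    obtain ⟨l, hl, h1, h2⟩ := dense a.1 a.2 b.1 b.2 hab
    exact ⟨⟨l, hl⟩, h1, h2⟩⟩
  have : Nontrivial T := ⟨⟨⟨x₀, hxT⟩, ⟨y₀, hyT⟩, fun h => hxy₀.ne (congrArg Subtype.val h)⟩⟩
  obtain ⟨f⟩ := Order.embedding_from_countable_to_dense ℚ T
  refine ⟨fun q => (f q).1, fun q => hTF.1 (f q).2, fun a b hab => ?_⟩
  have h1 : f a < f b := f.strictMono hab
  exact h1

end Pool.Agent.Helper41.IC
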